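import Mathlib
import Pool.Agent.U583.MC.Main

/-!
# Dense point sets whose monotone path covers are of superlinear size

For every `n ≥ 256` there is an `8`-dense set `A` of `n` points in general position in the plane, such that every
family of monotone paths which covers all segments between points of `A` has at least `n ^ (9 / 8) / 5000000` members.
So `mc (A n) / n` tends to infinity: the answer to the first question is yes.

The set is the `m × m` grid, `m = √n`, after the projective map `(x, y) ↦ T (x, y) / (T + x)`, `T = 4 q m`, and an
infinitesimal displacement which brings the points into general position; here `q` is the power of two with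
`q⁴ ≤ m < 16 q⁴`. The map is close to the identity, but no two grid lines which meet the grid in at least two points
and have a slope `r / q` remain parallel; the new slopes are `z / (q T)` for distinct integers `z`. Consider the
`≍ q² m` grid lines with slopes `r / q`, `r` odd, which contain `≍ m / q` points of the grid, and the segments between
the points in their left and right ends, `≍ m³` segments in all. If `u` is the direction of a monotone path, at most
one of these lines is orthogonal to `u`, and the path has `O(m / q)` segments in this line. It has at most one segment
in every other line. If the slope of the line and the direction orthogonal to `u` differ by `δ`, the segment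
contributes at least `c δ m` to the length of the projection of the path to the line with direction `u`, which is
`O(m)` in total. Since the slopes are at mutual distances at least `1 / (q T)`, the path meets `O(√(q T))` lines. So a
monotone path contains `O(m / q + q √m) = O(m^(3/4))` of the `≍ m³` segments.
-/

set_option autoImplicit false

open Filter Topology Pool.Agent.R143.MonoPath

namespace Pool.Agent.Results.MP_9c8b61_co.DenseSuperlinear

/-- **Dense sets in general position with superlinear `mc`.** -/
theorem result : ∃ A : ℕ → Finset Plane,
    (∀ n : ℕ, 256 ≤ n → (A n).card = n ∧ GeneralPosition (A n) ∧ IsDense 8 (A n) ∧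
      (n : ℝ) ^ (9 / 8 : ℝ) / 5000000 ≤ mc (A n)) ∧
    Tendsto (fun n : ℕ => (mc (A n) : ℝ) / n) atTop atTop := by
  classical
  have h1 : ∀ n : ℕ, ∃ A : Finset Plane, 256 ≤ n → A.card = n ∧ GeneralPosition A ∧
      IsDense 8 A ∧ (n : ℝ) ^ (9 / 8 : ℝ) / 5000000 ≤ mc A := by
    intro n
    by_cases hn : 256 ≤ n
    · obtain ⟨A, hA⟩ := Pool.Agent.U583.MC.exists_dense n hn
      exact ⟨A, fun _ => hA⟩
    · exact ⟨∅, fun h => absurd h hn⟩
  choose A hA using h1
  refine ⟨A, hA, ?_⟩
  have h2 : Tendsto (fun n : ℕ => (n : ℝ) ^ (1 / 8 : ℝ) / 5000000) atTop atTop :=
    (((tendsto_rpow_atTop (by norm_num : (0 : ℝ) < 1 / 8)).comp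
      tendsto_natCast_atTop_atTop).atTop_div_const (by norm_num))
  refine tendsto_atTop_mono' atTop ?_ h2
  filter_upwards [eventually_ge_atTop 256] with n hn
  have hn0 : (0 : ℝ) < n := by exact_mod_cast (by omega : 0 < n)
  have h3 := (hA n hn).2.2.2
  rw [le_div_iff₀ hn0]
  refine le_trans (le_of_eq ?_) h3
  have h4 : (n : ℝ) ^ (1 / 8 : ℝ) * n = (n : ℝ) ^ (9 / 8 : ℝ) := by
    nth_rewrite 2 [← Real.rpow_one (n : ℝ)]
    rw [← Real.rpow_add hn0]
    norm_num
  rw [← h4]
  ring

end Pool.Agent.Results.MP_9c8b61_co.DenseSuperlinear
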